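import Pool.Agent.W495.TA.Stms

/-!
# TA project: the first closure properties
-/

set_option autoImplicit false
set_option linter.all false

namespace Pool.Agent.W333.TA

open NumberField Pool.Agent.H204R3.CM Pool.Agent.W547.KB Pool.Agent.W547.LD Pool.Agent.W495.TA Module
open scoped TensorProduct

noncomputable section

section

variable {p : ℕ} [Fact p.Prime] {ν : PadicAlgCl p ≃+* ℂ} {Ω : Type} [Field Ω] [CharZero Ω]
  {L : Type} [Field L]

theorem monoO_apply (jO : L →+* Ω) {Y : RedAV p ν} {κ : Type} [Fintype κ] [DecidableEq κ]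
    (I : κ → Wt Y.X L) (v : κ → TM Ω Y) :
    monoO jO I v = ∑ σ : Equiv.Perm κ, ((Equiv.Perm.sign σ : ℤ) : Ω) *
      ∏ k, co jO (I k) (v (σ k)) := by
  unfold monoO
  rw [MultilinearMap.alternatization_apply]
  refine Finset.sum_congr rfl fun σ _ => ?_
  rw [Units.smul_def, zsmul_eq_mul]
  rfl

theorem monoO_cup (jO : L →+* Ω) {Y : RedAV p ν} {κ κ' : Type} [Fintype κ] [DecidableEq κ]
    [Fintype κ'] [DecidableEq κ'] (I : κ → Wt Y.X L) (I' : κ' → Wt Y.X L) (v : κ ⊕ κ' → TM Ω Y) :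
    ∑ σ : Equiv.Perm (κ ⊕ κ'), ((Equiv.Perm.sign σ : ℤ) : Ω) *
      (monoO jO I (fun k => v (σ (Sum.inl k))) * monoO jO I' (fun k => v (σ (Sum.inr k)))) =
      ((Fintype.card (Equiv.Perm κ) : Ω) * (Fintype.card (Equiv.Perm κ') : Ω)) *
        monoO jO (Sum.elim I I') v := by
  rw [monoO_apply]
  have h1 : ∀ σ : Equiv.Perm (κ ⊕ κ'),
      ((Equiv.Perm.sign σ : ℤ) : Ω) * (monoO jO I (fun k => v (σ (Sum.inl k))) *
        monoO jO I' (fun k => v (σ (Sum.inr k)))) =
      ∑ τ : Equiv.Perm κ, ∑ τ' : Equiv.Perm κ',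
        ((Equiv.Perm.sign (σ * Equiv.Perm.sumCongr τ τ') : ℤ) : Ω) *
        ∏ s, co jO (Sum.elim I I' s) (v ((σ * Equiv.Perm.sumCongr τ τ') s)) := by
    intro σ
    rw [monoO_apply, monoO_apply, Finset.sum_mul_sum, Finset.mul_sum]
    refine Finset.sum_congr rfl fun τ _ => ?_
    rw [Finset.mul_sum]
    refine Finset.sum_congr rfl fun τ' _ => ?_
    have e1 : ∏ s, co jO (Sum.elim I I' s) (v ((σ * Equiv.Perm.sumCongr τ τ') s)) =
        (∏ k, co jO (I k) (v (σ (Sum.inl (τ k))))) *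
          ∏ k, co jO (I' k) (v (σ (Sum.inr (τ' k)))) := by
      rw [Fintype.prod_sum_type]
      rfl
    rw [e1, map_mul, Equiv.Perm.sign_sumCongr]
    push_cast
    ring
  rw [Finset.sum_congr rfl (fun σ _ => h1 σ), Finset.sum_comm]
  have h2 : ∀ τ : Equiv.Perm κ, ∑ σ : Equiv.Perm (κ ⊕ κ'), ∑ τ' : Equiv.Perm κ',
      ((Equiv.Perm.sign (σ * Equiv.Perm.sumCongr τ τ') : ℤ) : Ω) *
        ∏ s, co jO (Sum.elim I I' s) (v ((σ * Equiv.Perm.sumCongr τ τ') s)) =
      (Fintype.card (Equiv.Perm κ') : Ω) * ∑ σ : Equiv.Perm (κ ⊕ κ'),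
        ((Equiv.Perm.sign σ : ℤ) : Ω) * ∏ s, co jO (Sum.elim I I' s) (v (σ s)) := by
    intro τ
    rw [Finset.sum_comm]
    have h3 : ∀ τ' : Equiv.Perm κ', ∑ σ : Equiv.Perm (κ ⊕ κ'),
        ((Equiv.Perm.sign (σ * Equiv.Perm.sumCongr τ τ') : ℤ) : Ω) *
        ∏ s, co jO (Sum.elim I I' s) (v ((σ * Equiv.Perm.sumCongr τ τ') s)) =
        ∑ σ : Equiv.Perm (κ ⊕ κ'), ((Equiv.Perm.sign σ : ℤ) : Ω) *
        ∏ s, co jO (Sum.elim I I' s) (v (σ s)) := by
      intro τ'
      exact Fintype.sum_equiv (Equiv.mulRight (Equiv.Perm.sumCongr τ τ')) _ _ (fun σ => rfl)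
    rw [Finset.sum_congr rfl (fun τ' _ => h3 τ'), Finset.sum_const, Finset.card_univ,
      nsmul_eq_mul]
  rw [Finset.sum_congr rfl (fun τ _ => h2 τ), Finset.sum_const, Finset.card_univ,
      nsmul_eq_mul, mul_assoc]

theorem monoO_reindex (jO : L →+* Ω) {Y : RedAV p ν} {κ κ' : Type} [Fintype κ] [DecidableEq κ]
    [Fintype κ'] [DecidableEq κ'] (e : κ ≃ κ') (I' : κ' → Wt Y.X L) :
    (monoO jO (fun k => I' (e k))).domDomCongr e = monoO jO I' := by
  ext v
  rw [AlternatingMap.domDomCongr_apply, monoO_apply, monoO_apply]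
  refine Fintype.sum_equiv e.permCongr _ _ fun σ => ?_
  rw [Equiv.Perm.sign_permCongr]
  congr 1
  refine Fintype.prod_equiv e _ _ fun k => ?_
  rw [Equiv.permCongr_apply, Equiv.symm_apply_apply]
  rfl

theorem co_F (jO : L →+* Ω) {Y : RedAV p ν} (w : Wt Y.X L) (v : TM Ω Y) :
    co jO w (F Ω Y v) = jO (w.2 (Y.π w.1)) * co jO w v := by
  induction v using TensorProduct.induction_on with
  | zero => simp
  | tmul c x =>
    unfold F co
    rw [LinearMap.baseChange_tmul, LinearMap.liftBaseChange_tmul, LinearMap.liftBaseChange_tmul]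
    have : evO jO w (mulFrob Y x) = jO (w.2 (Y.π w.1)) * evO jO w x := by
      change jO (w.2 (Y.π w.1 * x w.1)) = jO (w.2 (Y.π w.1)) * jO (w.2 (x w.1))
      rw [map_mul, map_mul]
    rw [this, smul_eq_mul, smul_eq_mul]
    ring
  | add x y hx hy => rw [map_add, map_add, map_add, hx, hy, mul_add]

theorem co_F_pow (jO : L →+* Ω) {Y : RedAV p ν} (w : Wt Y.X L) (s : ℕ) (v : TM Ω Y) :
    co jO w ((F Ω Y ^ s) v) = jO (w.2 (Y.π w.1)) ^ s * co jO w v := by
  induction s generalizing v with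
  | zero => simp
  | succ s ih =>
    rw [pow_succ, Module.End.mul_apply, ih, co_F, pow_succ, mul_assoc]

theorem monoO_F_pow (jO : L →+* Ω) {Y : RedAV p ν} {κ : Type} [Fintype κ] [DecidableEq κ]
    (I : κ → Wt Y.X L) (s : ℕ) (v : κ → TM Ω Y) :
    monoO jO I (fun k => (F Ω Y ^ s) (v k)) =
      jO (∏ k, (I k).2 (Y.π (I k).1)) ^ s * monoO jO I v := by
  rw [monoO_apply, monoO_apply, Finset.mul_sum]
  refine Finset.sum_congr rfl fun σ _ => ?_
  simp only [co_F_pow]
  rw [Finset.prod_mul_distrib, Finset.prod_pow, map_prod]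
  ring

end

/-- the functions on the Galois group of a translated embedding -/
theorem tf_smul (p : ℕ) [Fact p.Prime] (ν : PadicAlgCl p ≃+* ℂ) {L : Type} [Field L] [NumberField L]
    (j : L →+* ℂ) (A : CMPair) (φ : A.E →+* L) (σ : L ≃ₐ[ℚ] L) :
    tf p ν j (hs A j (σ • φ)) 1 = tf p ν j (hs A j φ) σ := by
  classical
  unfold tf
  refine Finset.sum_congr rfl fun d _ => ?_
  have h : (d * 1 ∈ hs A j (σ • φ)) ↔ (d * σ ∈ hs A j φ) := by
    rw [mul_one]
    change j.comp (d • (σ • φ)) ∈ A.Φ ↔ j.comp ((d * σ) • φ) ∈ A.Φ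
    rw [mul_smul]
  simp only [h]

theorem closed1 : S_closed1 := by
  classical
  intro hval hru p _ ν Ω _ _ L _ _ _ _ j jO
  refine ⟨?_, ?_, ?_, ?_⟩
  · intro κ _ t _ _ Y hY I hI
    exact Alg.unit _
  · intro κ κ' _ e t t' ht h _ _ Y hY I' hI'
    haveI := Fintype.ofFinite κ
    have h1 := h Y hY (fun k => I' (e k)) (by intro k; rw [hI', ht])
    have h2 := Alg.reindex e _ h1
    rwa [monoO_reindex] at h2
  · intro κ κ' _ _ t t' h h' iF iD Y hY I hI
    haveI := Fintype.ofFinite κ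
    haveI := Fintype.ofFinite κ'
    obtain rfl : iF = instFintypeSum κ κ' := Subsingleton.elim _ _
    obtain rfl : iD = instDecidableEqSum := Subsingleton.elim _ _
    have h1 := h Y hY (fun k => I (Sum.inl k)) (fun k => hI (Sum.inl k))
    have h2 := h' Y hY (fun k => I (Sum.inr k)) (fun k => hI (Sum.inr k))
    set c : Ω := (Fintype.card (Equiv.Perm κ) : Ω) * (Fintype.card (Equiv.Perm κ') : Ω) with hc
    have hc0 : c ≠ 0 := by
      rw [hc]
      exact mul_ne_zero (Nat.cast_ne_zero.mpr Fintype.card_ne_zero)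
        (Nat.cast_ne_zero.mpr Fintype.card_ne_zero)
    have hI2 : Sum.elim (fun k => I (Sum.inl k)) (fun k => I (Sum.inr k)) = I := by
      funext k
      rcases k with k | k <;> rfl
    have h3 := Alg.cup _ _ h1 h2 (c • monoO jO I) (by
      intro v
      rw [monoO_cup, hI2]
      rfl)
    have h4 := Alg.smul c⁻¹ _ h3
    rwa [smul_smul, inv_mul_cancel₀ hc0, one_smul] at h4
  · intro f iF iD Y hY I hI
    obtain rfl : iF = Fin.fintype 2 := Subsingleton.elim _ _
    obtain rfl : iD = instDecidableEqFin 2 := Subsingleton.elim _ _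
    have hI0 : tf p ν j (St j (I 0)) = f := hI 0
    have hI1 : tf p ν j (St j (I 1)) = -f := hI 1
    set lam : Fin 2 → L := fun k => (I k).2 (Y.π (I k).1) with hlam
    -- the valuations
    have hD : 0 < Nat.card (Dec p ν j) := Nat.card_pos
    set D : ℤ := (Nat.card (Dec p ν j) : ℤ) with hDdef
    have hv : ∀ (k : Fin 2) (σ : L ≃ₐ[ℚ] L), ‖ν.symm (j (σ (lam k)))‖ ^ (2 * D) =
        ‖(p : PadicAlgCl p) ^ Y.a‖ ^ (D + tf p ν j (St j (I k)) σ) := by
      intro k σ
      have h1 := (hval p ν L j (Y.X.factor (I k).1) (hY (I k).1) Y.a (Y.π (I k).1)).mp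
        (Y.frob (I k).1).shimuraTaniyama (σ • (I k).2)
      rw [tf_smul] at h1
      exact h1
    have hp0 : ‖(p : PadicAlgCl p) ^ Y.a‖ ≠ 0 := by
      rw [norm_ne_zero_iff]
      exact pow_ne_zero _ (Nat.cast_ne_zero.mpr (Fact.out : p.Prime).ne_zero)
    have hprod : ∀ σ : L ≃ₐ[ℚ] L, ‖ν.symm (j (σ (lam 0 * lam 1)))‖ =
        ‖(p : PadicAlgCl p) ^ Y.a‖ := by
      intro σ
      have h0 := hv 0 σ
      have h1 := hv 1 σ
      rw [hI0] at h0
      rw [hI1] at h1
      have h2 : ‖ν.symm (j (σ (lam 0 * lam 1)))‖ ^ (2 * D) =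
          ‖(p : PadicAlgCl p) ^ Y.a‖ ^ (2 * D) := by
        rw [map_mul, map_mul, map_mul, norm_mul, mul_zpow, h0, h1, ← zpow_add₀ hp0]
        congr 1
        rw [Pi.neg_apply]
        ring
      have h3 : (2 * D) = ((2 * Nat.card (Dec p ν j) : ℕ) : ℤ) := by
        rw [hDdef]; push_cast; ring
      rw [h3, zpow_natCast, zpow_natCast] at h2
      exact (pow_left_inj₀ (norm_nonneg _) (norm_nonneg _) (by omega)).mp h2
    have hw : ∀ (k : Fin 2) (ψ : L →+* ℂ), ‖ψ (lam k)‖ ^ 2 = (p : ℝ) ^ Y.a := fun k ψ =>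
      (Y.frob (I k).1).weil (ψ.comp (I k).2)
    have hint : ∀ k : Fin 2, IsIntegral ℤ (lam k) := fun k =>
      (Y.frob (I k).1).integral.map ((I k).2.toIntAlgHom)
    obtain ⟨n, hn, hn2⟩ := hru p ν L j (lam 0 * lam 1) ((p : L) ^ Y.a) (2 * Y.a) (2 * Y.a)
      (by have := Y.pos; omega) (by have := Y.pos; omega) ((hint 0).mul (hint 1))
      ((IsIntegral.pow (by exact_mod_cast isIntegral_algebraMap (R := ℤ) (x := (p : ℤ)))) _)
      (by
        intro ψ
        rw [map_mul, norm_mul, mul_pow, hw, hw, two_mul, pow_add])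
      (by
        intro ψ
        rw [map_pow, map_natCast, norm_pow, Complex.norm_natCast, ← pow_mul, mul_comm])
      (by
        intro σ
        rw [hprod σ, map_pow, map_natCast, map_pow, map_natCast, map_pow, map_natCast])
    refine Alg.divisor (by simp) _ (2 * Y.a * n) (Nat.mul_pos (by have := Y.pos; omega) hn) ?_
    intro v
    rw [monoO_F_pow, Fin.prod_univ_two]
    change jO (lam 0 * lam 1) ^ (2 * Y.a * n) * _ = _
    rw [← map_pow, hn2, map_pow, map_pow, map_natCast, one_mul]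

end

end Pool.Agent.W333.TA
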